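import Mathlib

set_option autoImplicit false

namespace Pool.Agent.Results.MP_bd2037_co.Cases

open Matrix Polynomial

/-- The bound `M(n,k)`, with `r = n / k` and `s = n % k`. -/
noncomputable def M (n k : ℕ) : ℝ :=
  (1 / ((n / k : ℕ) : ℝ) ^ (n / k)) ^ (k - n % k) *
    (1 / (((n / k : ℕ) : ℝ) + 1) ^ (n / k + 1)) ^ (n % k)

theorem factor {n : ℕ} (B : Matrix (Fin n) (Fin n) ℝ) :
    ∃ (U : Matrix (Fin n) (Fin B.rank) ℝ) (V : Matrix (Fin B.rank) (Fin n) ℝ), B = U * V := by
  let W := LinearMap.range B.mulVecLin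
  let b : Module.Basis (Fin B.rank) ℝ W := Module.finBasis ℝ W
  have hm : ∀ j : Fin n, (fun i => B i j) ∈ W := by
    intro j
    refine ⟨Pi.single j 1, ?_⟩
    funext i
    simp [Matrix.mulVec, dotProduct, Pi.single_apply]
  refine ⟨Matrix.of fun i l => (b l : Fin n → ℝ) i, Matrix.of fun l j => b.repr ⟨_, hm j⟩ l, ?_⟩
  ext i j
  have h := congrArg (fun w : W => (w : Fin n → ℝ) i) (b.sum_repr ⟨_, hm j⟩)
  simp only [Submodule.coe_sum, Submodule.coe_smul, Finset.sum_apply, Pi.smul_apply,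
    smul_eq_mul] at h
  rw [Matrix.mul_apply, ← h]
  exact Finset.sum_congr rfl fun l _ => by simp [mul_comm]

theorem trace_le {n : ℕ} (B : Matrix (Fin n) (Fin n) ℝ) (h0 : ∀ i j, 0 ≤ B i j)
    (h1 : ∀ i, ∑ j, B i j = 1) : ∑ i, B i i ≤ B.rank := by
  obtain ⟨U, V, hB⟩ := factor B
  generalize B.rank = r at U V hB ⊢
  let U' := U.map Complex.ofRealHom
  let V' := V.map Complex.ofRealHom
  have hC : B.map Complex.ofRealHom = U' * V' := by rw [hB, Matrix.map_mul]
  have hroot : ∀ μ ∈ (V' * U').charpoly.roots, ‖μ‖ ≤ 1 := by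
    intro μ hμ
    by_cases hz : μ = 0
    · simp [hz]
    have e := congrArg (Polynomial.eval μ) (Matrix.charpoly_mul_comm' U' V')
    have hr : (V' * U').charpoly.eval μ = 0 := (Polynomial.mem_roots'.1 hμ).2
    simp only [eval_mul, eval_pow, eval_X, hr, mul_zero] at e
    have e2 : (U' * V').charpoly.eval μ = 0 :=
      (mul_eq_zero.1 e).resolve_left (pow_ne_zero _ hz)
    rw [← hC] at e2
    have hev : Module.End.HasEigenvalue (Matrix.toLin' (B.map Complex.ofRealHom)) μ := by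
      rw [Module.End.hasEigenvalue_iff_isRoot_charpoly, Matrix.charpoly_toLin']
      exact e2
    obtain ⟨k, hk⟩ := eigenvalue_mem_ball hev
    rw [Metric.mem_closedBall, dist_eq_norm] at hk
    have hn : ∀ i j, ‖(B.map Complex.ofRealHom) i j‖ = B i j := by
      intro i j
      simp [abs_of_nonneg (h0 i j)]
    simp only [hn] at hk
    have hs := Finset.add_sum_erase Finset.univ (fun j => B k j) (Finset.mem_univ k)
    have ht := norm_add_le (μ - (B.map Complex.ofRealHom) k k) ((B.map Complex.ofRealHom) k k)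
    rw [sub_add_cancel, hn] at ht
    have := h1 k
    linarith
  have htr : (((∑ i, B i i : ℝ)) : ℂ) = (V' * U').charpoly.roots.sum := by
    rw [← Matrix.trace_eq_sum_roots_charpoly, Matrix.trace_mul_comm, ← hC]
    simp [Matrix.trace]
  have hcard : (V' * U').charpoly.roots.card = r := by
    rw [IsAlgClosed.card_roots_eq_natDegree, Matrix.charpoly_natDegree_eq_dim]
    simp
  have hnorm : ‖(V' * U').charpoly.roots.sum‖ ≤ r := by
    refine (norm_multiset_sum_le _).trans ?_
    have := Multiset.sum_le_card_nsmul (((V' * U').charpoly.roots).map fun x => ‖x‖) 1 (by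
      intro x hx
      obtain ⟨μ, hμ, rfl⟩ := Multiset.mem_map.1 hx
      exact hroot μ hμ)
    simpa [hcard] using this
  rw [← htr, Complex.norm_real] at hnorm
  exact (le_abs_self _).trans hnorm

theorem amgm {n : ℕ} (hn : 0 < n) (d : Fin n → ℝ) (hd : ∀ i, 0 ≤ d i) (c : ℝ)
    (h : ∑ i, d i ≤ c) : ∏ i, d i ≤ (c / n) ^ n := by
  have hn' : (0 : ℝ) < n := by exact_mod_cast hn
  have h1 := Real.geom_mean_le_arith_mean_weighted Finset.univ (fun _ : Fin n => (n : ℝ)⁻¹) d
    (fun _ _ => by positivity) (by simp [hn'.ne']) (fun i _ => hd i)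
  rw [Real.finsetProd_rpow _ _ (fun i _ => hd i), ← Finset.mul_sum] at h1
  have hp : 0 ≤ ∏ i, d i := Finset.prod_nonneg fun i _ => hd i
  have h2 : (∏ i, d i) ^ ((n : ℝ)⁻¹) ≤ c / n := by
    refine h1.trans ?_
    rw [div_eq_inv_mul]
    exact mul_le_mul_of_nonneg_left h (by positivity)
  have h3 := pow_le_pow_left₀ (Real.rpow_nonneg hp _) h2 n
  rwa [Real.rpow_inv_natCast_pow hp hn.ne'] at h3

theorem sing {n : ℕ} (B : Matrix (Fin n) (Fin n) ℝ) (h0 : ∀ i j, 0 ≤ B i j)
    (h1 : ∀ i, ∑ j, B i j = 1) (hr : B.rank < n) : ∏ i, B i i ≤ 1 / 4 := by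
  have hdet : B.det = 0 := by
    by_contra hne
    have := Matrix.rank_of_isUnit B ((Matrix.isUnit_iff_isUnit_det B).2 (Ne.isUnit hne))
    simp at this
    omega
  obtain ⟨y, hy, hyB⟩ := Matrix.exists_vecMul_eq_zero_iff.2 hdet
  have hcol : ∀ j, ∑ i, y i * B i j = 0 := fun j => congrFun hyB j
  have hsum : ∑ i, y i = 0 := by
    have : ∑ j, ∑ i, y i * B i j = 0 := Finset.sum_eq_zero fun j _ => hcol j
    rw [Finset.sum_comm] at this
    simpa [← Finset.mul_sum, h1] using this
  have hle : ∀ i, B i i ≤ 1 := fun i => by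
    rw [← h1 i]
    exact Finset.single_le_sum (fun j _ => h0 i j) (Finset.mem_univ i)
  have hpair : ∃ i j, i ≠ j ∧ B i i + B j j ≤ 1 := by
    by_contra hcon
    push Not at hcon
    let P := Finset.univ.filter fun i => 0 < y i
    have hPne : P.Nonempty := by
      by_contra hP
      rw [Finset.not_nonempty_iff_eq_empty, Finset.filter_eq_empty_iff] at hP
      apply hy
      funext i
      have := (Finset.sum_eq_zero_iff_of_nonpos
        (fun i hi => not_lt.1 (hP hi))).1 hsum i (Finset.mem_univ i)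
      exact this
    obtain ⟨p, hp, hpmin⟩ := Finset.exists_min_image P (fun i => B i i) hPne
    have hyp : 0 < y p := (Finset.mem_filter.1 hp).2
    -- `s i` is the mass of row `i` on `P`
    have hz : ∑ i, y i * (∑ j ∈ P, B i j - B p p) = 0 := by
      have e1 : ∑ i, y i * ∑ j ∈ P, B i j = 0 := by
        simp only [Finset.mul_sum]
        rw [Finset.sum_comm]
        exact Finset.sum_eq_zero fun j _ => hcol j
      simp only [mul_sub, Finset.sum_sub_distrib, e1, ← Finset.sum_mul, hsum]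
      simp
    have hterm : ∀ i, y i < 0 → ∑ j ∈ P, B i j - B p p < 0 := by
      intro i hi
      have hiP : i ∉ P := fun h => lt_asymm hi (Finset.mem_filter.1 h).2
      have hip : i ≠ p := fun h => hiP (h ▸ hp)
      have h2 : B i i + ∑ j ∈ P, B i j ≤ 1 := by
        rw [← Finset.sum_insert hiP, ← h1 i]
        exact Finset.sum_le_sum_of_subset_of_nonneg (Finset.subset_univ _) fun j _ _ => h0 i j
      have := hcon i p hip
      linarith
    have hnn : ∀ i ∈ Finset.univ, 0 ≤ y i * (∑ j ∈ P, B i j - B p p) := by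
      intro i _
      rcases lt_trichotomy (y i) 0 with h | h | h
      · exact (mul_pos_of_neg_of_neg h (hterm i h)).le
      · simp [h]
      · have hiP : i ∈ P := Finset.mem_filter.2 ⟨Finset.mem_univ _, h⟩
        have h2 : B i i ≤ ∑ j ∈ P, B i j := Finset.single_le_sum (fun j _ => h0 i j) hiP
        have h3 := hpmin i hiP
        exact mul_nonneg h.le (by linarith)
    have hall := (Finset.sum_eq_zero_iff_of_nonneg hnn).1 hz
    have hneg : ∀ i ∈ Finset.univ, 0 ≤ y i := by
      intro i hi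
      by_contra hlt
      have hlt' := not_le.1 hlt
      exact (mul_pos_of_neg_of_neg hlt' (hterm i hlt')).ne' (hall i hi)
    have := (Finset.sum_eq_zero_iff_of_nonneg hneg).1 hsum p (Finset.mem_univ p)
    exact hyp.ne' this
  obtain ⟨i, j, hij, hs⟩ := hpair
  have hj : j ∈ Finset.univ.erase i := Finset.mem_erase.2 ⟨hij.symm, Finset.mem_univ j⟩
  rw [← Finset.mul_prod_erase _ _ (Finset.mem_univ i), ← Finset.mul_prod_erase _ _ hj]
  have hrest : ∏ l ∈ (Finset.univ.erase i).erase j, B l l ≤ 1 :=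
    Finset.prod_le_one (fun l _ => h0 l l) fun l _ => hle l
  have hi0 := h0 i i
  have hj0 := h0 j j
  have : B i i * B j j ≤ 1 / 4 := by nlinarith [sq_nonneg (B i i - B j j)]
  calc B i i * (B j j * ∏ l ∈ (Finset.univ.erase i).erase j, B l l)
      = (B i i * B j j) * ∏ l ∈ (Finset.univ.erase i).erase j, B l l := by ring
    _ ≤ (B i i * B j j) * 1 := mul_le_mul_of_nonneg_left hrest (mul_nonneg hi0 hj0)
    _ ≤ 1 / 4 := by linarith

theorem row (n k : ℕ) (hk : 1 ≤ k) (hkn : k ≤ n) (B : Matrix (Fin n) (Fin n) ℝ)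
    (h0 : ∀ i j, 0 ≤ B i j) (h1 : ∀ i, ∑ j, B i j = 1) (hr : B.rank ≤ k) :
    ∏ i, B i i ≤ ((k : ℝ) / n) ^ n ∧ (k ∣ n ∨ k + 1 = n → ∏ i, B i i ≤ M n k) := by
  have hA : ∏ i, B i i ≤ ((k : ℝ) / n) ^ n :=
    amgm (by omega) _ (fun i => h0 i i) _ ((trace_le B h0 h1).trans (by exact_mod_cast hr))
  have hdiv : k ∣ n → ∏ i, B i i ≤ M n k := by
    rintro ⟨r, rfl⟩
    refine hA.trans (le_of_eq ?_)
    have hk' : (k : ℝ) ≠ 0 := by positivity
    unfold M
    rw [Nat.mul_div_cancel_left r (by omega : 0 < k), Nat.mul_mod_right]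
    simp only [Nat.sub_zero, pow_zero, mul_one, Nat.cast_mul]
    rw [div_mul_cancel_left₀ hk', ← _root_.one_div_pow, ← pow_mul, mul_comm r k, one_div]
  refine ⟨hA, ?_⟩
  rintro (h | h)
  · exact hdiv h
  · by_cases hk1 : k = 1
    · exact hdiv (hk1 ▸ one_dvd n)
    · subst h
      refine (sing B h0 h1 (by omega)).trans (le_of_eq ?_)
      have e1 : (k + 1) / k = 1 := by
        rw [Nat.add_div_left 1 (by omega : 0 < k), Nat.div_eq_of_lt (by omega)]
      have e2 : (k + 1) % k = 1 := by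
        rw [Nat.add_mod_left, Nat.mod_eq_of_lt (by omega)]
      unfold M
      rw [e1, e2]
      norm_num

theorem result (n k : ℕ) (hk : 1 ≤ k) (hkn : k ≤ n) (σ : Equiv.Perm (Fin n))
    (A : Matrix (Fin n) (Fin n) ℝ) (h0 : ∀ i j, 0 ≤ A i j)
    (h1 : (∀ i, ∑ j, A i j = 1) ∨ (∀ j, ∑ i, A i j = 1)) (hr : A.rank ≤ k) :
    ∏ i, A i (σ i) ≤ ((k : ℝ) / n) ^ n ∧ (k ∣ n ∨ k + 1 = n → ∏ i, A i (σ i) ≤ M n k) := by
  rcases h1 with h1 | h1
  · exact row n k hk hkn (A.submatrix (Equiv.refl _) σ) (fun i j => h0 _ _)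
      (fun i => (Equiv.sum_comp σ (fun j => A i j)).trans (h1 i))
      (by rw [Matrix.rank_submatrix]; exact hr)
  · exact row n k hk hkn (A.submatrix (Equiv.refl _) σ)ᵀ (fun i j => h0 _ _)
      (fun j => h1 (σ j))
      (by rw [Matrix.rank_transpose, Matrix.rank_submatrix]; exact hr)

end Pool.Agent.Results.MP_bd2037_co.Cases
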